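import Pool.Agent.Work.MP_2482e4_mp.Comm

open scoped Topology ContDiff
open Pool.Agent.Work.MP_2482e4_mp

namespace Pool.Agent.Results.MP_2482e4_mp.Commuting

/-- For every smooth Petz metric whose function `f` is positive, symmetric, normalised, analytic at
`1` and differs from the Bogoliubov-Kubo-Mori function `(t - 1) / log t` near `1`, a pair `(ρ, V)`
with `V` commuting with `ρ` is the point and tangent space of an `e`-autoparallel submanifold if
and only if the `e`-representations of `V` form a Lie triple system. -/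
theorem result {E : Type} [NormedAddCommGroup E] [NormedSpace ℝ E] {n : Type} [Fintype n]
    [DecidableEq n] (ι : E →ₗ[ℝ] Matrix n n ℂ) (hι : IsHermModel ι) (f : ℝ → ℝ)
    (hf : ∀ t, 0 < t → 0 < f t) (hfs : ∀ t, 0 < t → f t = t * f t⁻¹) (hf1 : f 1 = 1)
    (hfa : AnalyticAt ℝ f 1) (hne : ¬ ∀ᶠ t in 𝓝[≠] (1 : ℝ), f t = (t - 1) / Real.log t)
    (g : E → E →L[ℝ] E →L[ℝ] ℝ) (hg : IsPetz ι f g) (hsm : ∀ q ∈ states ι, ContDiffAt ℝ ∞ g q)
    (ρ : E) (hρ : ρ ∈ states ι) (V : Submodule ℝ E) (hV : ∀ X ∈ V, (ι X).trace = 0)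
    (hc : ∀ X ∈ V, Commute (ι ρ) (ι X)) :
    Admissible ι g ρ V ↔ IsLieTriple (eRep ι g ρ V) :=
  comm_iff hι hf hfs hf1 hfa hne hg hsm hρ hV hc

end Pool.Agent.Results.MP_2482e4_mp.Commuting
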