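import Pool.Agent.Work.MP_2482e4_mp.Dt.Main
import Pool.Agent.Work.MP_2482e4_mp.Dt.Hol3

open MeasureTheory
open Pool.Agent.Work.MP_2482e4_mp

namespace Pool.Agent.Results.MP_2482e4_mp.DiffTranscendental

/-- Let `g` be the Petz metric of `fMeas ν`, for a probability measure `ν` on `[0, 1]` such that
`x ↦ fMeas ν (e ^ x)` satisfies no algebraic differential equation (a residual set of measures,
which contains an explicit one, built from the digamma series).
For almost every spectrum and every state `ρ` with that spectrum, a pair `(ρ, V)` is the point and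
tangent space of an `e`-autoparallel submanifold if and only if `log ρ` and the
`e`-representations of `V` are of product type. -/
theorem result :
    {ν : ProbabilityMeasure (Set.Icc (0 : ℝ) 1) | IsDiffTransc (fMeas ν)} ∈
        residual (ProbabilityMeasure (Set.Icc (0 : ℝ) 1)) ∧
      (∃ ν : ProbabilityMeasure (Set.Icc (0 : ℝ) 1), (∀ t : ℝ, 0 < t → fMeas ν t = (1 + t) / 2 *
        (∑' k : ℕ, 1 / (((k : ℝ) + 4) * (k + 2 + t + t⁻¹))) / ∑' k : ℕ, 1 / ((k : ℝ) + 4) ^ 2) ∧
        IsDiffTransc (fMeas ν)) ∧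
      ∀ ν : ProbabilityMeasure (Set.Icc (0 : ℝ) 1), IsDiffTransc (fMeas ν) →
        ∀ (n : Type) [Fintype n] [DecidableEq n], ∀ᵐ x : n → ℝ,
          ∀ (E : Type) [NormedAddCommGroup E] [NormedSpace ℝ E] (ι : E →ₗ[ℝ] Matrix n n ℂ),
          IsHermModel ι → ∀ g : E → E →L[ℝ] E →L[ℝ] ℝ, IsPetz ι (fMeas ν) g →
          ∀ ρ ∈ states ι, ∀ U : Matrix n n ℂ, U * star U = 1 →
          ι ρ = U * Matrix.diagonal (fun i => ((Real.exp (x i) / ∑ j, Real.exp (x j) : ℝ) : ℂ)) *
            star U →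
          ∀ V : Submodule ℝ E, (∀ X ∈ V, (ι X).trace = 0) →
            (Admissible ι g ρ V ↔ IsProductType (cfc Real.log (ι ρ)) (eRep ι g ρ V)) :=
  ⟨Dt.residual_dt, Dt.exists_example, fun ν hν _ _ _ => (Dt.ae_genAt (Dt.anF_meas ν).an hν).mono
    fun _ hx _ _ _ _ hι _ hg _ hρ _ hU e _ hV => Dt.main_at hι (Dt.anF_meas ν) hg
      (fun _ hq => Gn.petz_smooth_meas hι ν hg hq.1) hρ hU hx e hV⟩

end Pool.Agent.Results.MP_2482e4_mp.DiffTranscendental
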