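import Pool.Agent.Work.MP_2482e4_mp.FamSmooth

open Pool.Agent.Work.MP_2482e4_mp

namespace Pool.Agent.Results.MP_2482e4_mp.Family

/-- For the Petz metric of `f_κ (t) = (κ / 2) (t - 1) (t ^ κ + 1) / (t ^ κ - 1)` (`κ = 1`: SLD
metric, `κ = 1 / 2`: Wigner-Yanase metric), a pair `(ρ, V)` is the point and tangent space of an
`e`-autoparallel submanifold of the state space if and only if the `e`-representations of `V`
(together with the scalars) form a Lie triple system `𝒜` and `[[𝒜, 𝒜], ρ] ⊆ V`. -/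
theorem result {E : Type} [NormedAddCommGroup E] [NormedSpace ℝ E] {n : Type} [Fintype n]
    [DecidableEq n] (ι : E →ₗ[ℝ] Matrix n n ℂ) (hι : IsHermModel ι) (κ : ℝ) (hκ : 0 < κ)
    (g : E → E →L[ℝ] E →L[ℝ] ℝ) (hg : IsPetz ι (fKappa κ) g) (ρ : E) (hρ : ρ ∈ states ι)
    (V : Submodule ℝ E) (hV : ∀ X ∈ V, (ι X).trace = 0) :
    Admissible ι g ρ V ↔ IsLieTriple (eRep ι g ρ V) ∧
      ∀ A ∈ eRep ι g ρ V, ∀ B ∈ eRep ι g ρ V, ∃ X ∈ V, ι X = ⁅⁅A, B⁆, ι ρ⁆ :=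
  family_iff hι hκ hg hρ hV

end Pool.Agent.Results.MP_2482e4_mp.Family
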