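import Pool.Agent.Work.MP_2482e4_mp.Gn.Main
import Pool.Agent.Work.MP_2482e4_mp.Gn.Sm
import Pool.Agent.Work.MP_2482e4_mp.Pv.B

open MeasureTheory
open Pool.Agent.Work.MP_2482e4_mp

namespace Pool.Agent.Results.MP_2482e4_mp.Generic

/-- Let `g` be the Petz metric of `fMeas ν`, for a probability measure `ν` on `[0, 1]`. A pair
`(ρ, V)` such that `log ρ` and the `e`-representations of `V` are of product type is the point and
tangent space of an `e`-autoparallel submanifold; if `fMeas ν` is generic, which holds on a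
prevalent `Gδ` set of measures `ν`, there are no other such pairs. -/
theorem result :
    (∃ G : Set (ProbabilityMeasure (Set.Icc (0 : ℝ) 1)), IsGδ G ∧ IsPrevalent G ∧
        ∀ ν ∈ G, IsGeneric (fMeas ν)) ∧
      ∀ (ν : ProbabilityMeasure (Set.Icc (0 : ℝ) 1)) (E : Type) [NormedAddCommGroup E]
        [NormedSpace ℝ E] (n : Type) [Fintype n] [DecidableEq n] (ι : E →ₗ[ℝ] Matrix n n ℂ),
        IsHermModel ι → ∀ g : E → E →L[ℝ] E →L[ℝ] ℝ, IsPetz ι (fMeas ν) g →
        ∀ ρ ∈ states ι, ∀ V : Submodule ℝ E, (∀ X ∈ V, (ι X).trace = 0) →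
          (IsProductType (cfc Real.log (ι ρ)) (eRep ι g ρ V) → Admissible ι g ρ V) ∧
          (IsGeneric (fMeas ν) → Admissible ι g ρ V →
            IsProductType (cfc Real.log (ι ρ)) (eRep ι g ρ V)) :=
  ⟨Pv.prevalent_generic, fun ν _ _ _ _ _ _ _ hι _ hg _ hρ _ hV =>
    Gn.main hι (fun _ => Gn.fMeas_pos ν) (fun _ => Gn.fMeas_symm ν) (Gn.fMeas_one ν)
      (Gn.fMeas_smooth ν) hg (fun _ hq => Gn.petz_smooth_meas hι ν hg hq.1) hρ hV⟩

end Pool.Agent.Results.MP_2482e4_mp.Generic
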